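import Pool.Agent.CPT.StmtsA

set_option autoImplicit false

/-! Squad CPT, row CND (condenser). -/

namespace Pool.Agent.CPT.H69

open MvPolynomial

theorem cnd (qdt : QdtStmt) : CndStmt := by
  intro E _ _ n r A G hF
  classical
  set W : Submodule E (Fin n → E) := Submodule.span E (Set.range A) with hW
  set ρ := Module.finrank E W with hρ
  have hρr : ρ ≤ r := by
    have h := finrank_range_le_card (R := E) A
    rw [Fintype.card_fin] at h
    exact h
  let b : Module.Basis (Fin ρ) E W := Module.finBasis E W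
  set A' : Fin ρ → Fin n → E := fun k => (b k : Fin n → E) with hA'
  have hli : LinearIndependent E A' :=
    b.linearIndependent.map' W.subtype (Submodule.ker_subtype W)
  have hmem : ∀ j, A j ∈ W := fun j => Submodule.subset_span ⟨j, rfl⟩
  set B : Fin r → Fin ρ → E := fun j k => b.repr ⟨A j, hmem j⟩ k with hB
  have hAB : ∀ j i, A j i = ∑ k, B j k * A' k i := by
    intro j i
    have h1 := b.sum_repr ⟨A j, hmem j⟩
    have h2 := congrArg (fun w : W => (w : Fin n → E) i) h1
    simp only [Submodule.coe_sum, Submodule.coe_smul, Finset.sum_apply, Pi.smul_apply,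
      smul_eq_mul] at h2
    exact h2.symm
  obtain ⟨t, ht, hdet⟩ := qdt E ρ n A' hli
  refine ⟨t, ht.trans (Nat.mul_le_mul_left n (Nat.pow_le_pow_left hρr 2)), ?_⟩
  set M : Matrix (Fin ρ) (Fin ρ) E := Matrix.of fun k j : Fin ρ => ∑ i : Fin n,
        A' k i * (t : E) ^ ((i : ℕ) * ((j : ℕ) + 1)) with hM
  have hMM : M * M⁻¹ = 1 := Matrix.mul_nonsing_inv _ (isUnit_iff_ne_zero.2 hdet)
  set G₁ : MvPolynomial (Fin ρ) E := aeval (fun j => ∑ k, C (B j k) * X k) G with hG₁
  set lA' : MvPolynomial (Fin ρ) E →ₐ[E] MvPolynomial (Fin n) E :=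
    aeval (fun k => ∑ i, C (A' k i) * X i) with hlA'
  have hFG : (aeval (fun j => ∑ i, C (A j i) * X i) G : MvPolynomial (Fin n) E) = lA' G₁ := by
    have h : (aeval (fun j => ∑ i, C (A j i) * X i) :
        MvPolynomial (Fin r) E →ₐ[E] MvPolynomial (Fin n) E) =
        lA'.comp (aeval (fun j => ∑ k, C (B j k) * X k)) := by
      refine MvPolynomial.algHom_ext fun j => ?_
      rw [AlgHom.comp_apply, aeval_X, aeval_X, map_sum]
      have h1 : ∀ k, lA' (C (B j k) * X k) = ∑ i, C (B j k * A' k i) * X i := by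
        intro k
        rw [map_mul, ← MvPolynomial.algebraMap_eq, AlgHom.commutes, hlA', aeval_X,
          Finset.mul_sum]
        refine Finset.sum_congr rfl fun i _ => ?_
        rw [MvPolynomial.algebraMap_eq, C_mul, mul_assoc]
      rw [Finset.sum_congr rfl fun k _ => h1 k, Finset.sum_comm]
      refine Finset.sum_congr rfl fun i _ => ?_
      rw [← Finset.sum_mul, hAB, map_sum]
    rw [h]
    rfl
  have hG₁0 : G₁ ≠ 0 := by
    intro h
    apply hF
    rw [hFG, h, map_zero]
  set ψ : MvPolynomial (Fin r) E →ₐ[E] MvPolynomial (Fin ρ) E :=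
    aeval (fun j => if h : (j : ℕ) < ρ then ∑ l, C (M⁻¹ ⟨j, h⟩ l) * X l else 0) with hψ
  have hcomp : ∀ k, ψ (vdm n r (t : E) (lA' (X k))) = X k := by
    intro k
    have h1 : ψ (vdm n r (t : E) (lA' (X k))) = ∑ j : Fin r,
        C (∑ i : Fin n, A' k i * (t : E) ^ ((i : ℕ) * ((j : ℕ) + 1))) * ψ (X j) := by
      rw [hlA', aeval_X, map_sum, map_sum]
      have h2 : ∀ i : Fin n, ψ (vdm n r (t : E) (C (A' k i) * X i)) = ∑ j : Fin r,
          C (A' k i * (t : E) ^ ((i : ℕ) * ((j : ℕ) + 1))) * ψ (X j) := by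
        intro i
        rw [map_mul, map_mul, ← MvPolynomial.algebraMap_eq, AlgHom.commutes, AlgHom.commutes]
        have h3 : vdm n r (t : E) (X i) =
            ∑ j : Fin r, C ((t : E) ^ ((i : ℕ) * ((j : ℕ) + 1))) * X j := by
          rw [vdm, aeval_X]
        rw [h3, map_sum, Finset.mul_sum]
        refine Finset.sum_congr rfl fun j _ => ?_
        rw [map_mul, ← MvPolynomial.algebraMap_eq, ← MvPolynomial.algebraMap_eq,
          AlgHom.commutes, map_mul, mul_assoc]
      rw [Finset.sum_congr rfl fun i _ => h2 i, Finset.sum_comm]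
      refine Finset.sum_congr rfl fun j _ => ?_
      rw [← Finset.sum_mul, map_sum]
    rw [h1]
    have h4 : ∑ j : Fin r, C (∑ i : Fin n, A' k i * (t : E) ^ ((i : ℕ) * ((j : ℕ) + 1))) *
        ψ (X j) = ∑ j : Fin ρ, C (M k j) * ∑ l, C (M⁻¹ j l) * X l := by
      symm
      refine Finset.sum_of_injOn (Fin.castLE hρr) (Fin.castLE_injective hρr).injOn
        (fun _ _ => Finset.mem_coe.2 (Finset.mem_univ _)) ?_ ?_
      · intro j _ hj
        have h5 : ¬ (j : ℕ) < ρ := by
          intro h6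
          apply hj
          exact ⟨⟨j, h6⟩, Finset.mem_coe.2 (Finset.mem_univ _), Fin.ext rfl⟩
        rw [hψ, aeval_X, dif_neg h5, mul_zero]
      · intro j _
        rw [hψ, aeval_X, dif_pos (show ((Fin.castLE hρr j : Fin r) : ℕ) < ρ from j.2)]
        rfl
    rw [h4]
    have h5 : ∀ j : Fin ρ, C (M k j) * ∑ l, C (M⁻¹ j l) * X l =
        ∑ l, C (M k j * M⁻¹ j l) * (X l : MvPolynomial (Fin ρ) E) := by
      intro j
      rw [Finset.mul_sum]
      refine Finset.sum_congr rfl fun l _ => ?_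
      rw [C_mul, mul_assoc]
    rw [Finset.sum_congr rfl fun j _ => h5 j, Finset.sum_comm]
    have h6 : ∀ l : Fin ρ, ∑ j, C (M k j * M⁻¹ j l) * (X l : MvPolynomial (Fin ρ) E) =
        C ((1 : Matrix (Fin ρ) (Fin ρ) E) k l) * X l := by
      intro l
      rw [← Finset.sum_mul, ← map_sum, ← hMM, Matrix.mul_apply]
    rw [Finset.sum_congr rfl fun l _ => h6 l, Finset.sum_eq_single k]
    · rw [Matrix.one_apply_eq, C_1, one_mul]
    · intro l _ hl
      rw [Matrix.one_apply_ne hl.symm, C_0, zero_mul]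
    · intro h
      exact absurd (Finset.mem_univ k) h
  have hall : ψ (vdm n r (t : E) (lA' G₁)) = G₁ := by
    have h : (ψ.comp (vdm n r (t : E))).comp lA' = AlgHom.id E _ :=
      MvPolynomial.algHom_ext fun k => hcomp k
    exact congrArg (fun f : MvPolynomial (Fin ρ) E →ₐ[E] MvPolynomial (Fin ρ) E => f G₁) h
  intro h0
  rw [hFG] at h0
  rw [h0, map_zero] at hall
  exact hG₁0 hall.symm

end Pool.Agent.CPT.H69
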