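import Pool.Agent.CPT.StmtsB

set_option autoImplicit false

/-! Squad CPT, row BAK. -/

namespace Pool.Agent.CPT.H69

open Polynomial

theorem bak : BakStmt := by
  intro E K _ _ _ n N ι hι u e he P hP
  set φ : MvPolynomial (Fin (n + 1)) E →+* (KK n E)[X] :=
    (Polynomial.mapRingHom (algebraMap (MvPolynomial (Fin n) E) (KK n E))).comp
      ((MvPolynomial.finSuccEquiv E n).toRingEquiv.toRingHom) with hφ
  have hinj : Function.Injective φ := by
    have h1 : Function.Injective
        (Polynomial.mapRingHom (algebraMap (MvPolynomial (Fin n) E) (KK n E))) :=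
      Polynomial.map_injective _ (IsFractionRing.injective _ _)
    exact h1.comp (MvPolynomial.finSuccEquiv E n).injective
  have hev : ∀ Q : MvPolynomial (Fin (n + 1)) E, (φ Q).eval₂ ι u =
      MvPolynomial.aeval (Fin.cons u (fun j => ι (al (MvPolynomial.X j))) :
        Fin (n + 1) → K) Q := by
    intro Q
    have h : (Polynomial.eval₂RingHom ι u).comp φ =
        (MvPolynomial.aeval (Fin.cons u (fun j => ι (al (MvPolynomial.X j))) :
          Fin (n + 1) → K)).toRingHom := by
      refine MvPolynomial.ringHom_ext ?_ ?_
      · intro a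
        have e1 : φ (MvPolynomial.C a) = Polynomial.C (algebraMap E (KK n E) a) := by
          rw [hφ]
          show Polynomial.map _ (MvPolynomial.finSuccEquiv E n (MvPolynomial.C a)) = _
          rw [← MvPolynomial.algebraMap_eq, AlgEquiv.commutes, Polynomial.algebraMap_apply,
            Polynomial.map_C, IsScalarTower.algebraMap_apply E (MvPolynomial (Fin n) E) (KK n E)]
        show (φ (MvPolynomial.C a)).eval₂ ι u = MvPolynomial.aeval _ (MvPolynomial.C a)
        rw [e1, Polynomial.eval₂_C, MvPolynomial.aeval_C, hι]
      · intro i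
        show (φ (MvPolynomial.X i)).eval₂ ι u = MvPolynomial.aeval _ (MvPolynomial.X i)
        rw [MvPolynomial.aeval_X]
        refine Fin.cases ?_ (fun j => ?_) i
        · have e1 : φ (MvPolynomial.X 0) = Polynomial.X := by
            rw [hφ]
            show Polynomial.map _ (MvPolynomial.finSuccEquiv E n (MvPolynomial.X 0)) = _
            rw [MvPolynomial.finSuccEquiv_X_zero, Polynomial.map_X]
          rw [e1, Polynomial.eval₂_X, Fin.cons_zero]
        · have e1 : φ (MvPolynomial.X j.succ) = Polynomial.C (al (MvPolynomial.X j)) := by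
            rw [hφ]
            show Polynomial.map _ (MvPolynomial.finSuccEquiv E n (MvPolynomial.X j.succ)) = _
            rw [MvPolynomial.finSuccEquiv_X_succ, Polynomial.map_C]
            rfl
          rw [e1, Polynomial.eval₂_C, Fin.cons_succ]
    exact congrArg (fun f : MvPolynomial (Fin (n + 1)) E →+* K => f Q) h
  have h0 := he (fun i => φ (P i)) (by
    rw [← hP]
    exact Finset.sum_congr rfl fun i _ => by rw [hev])
  funext i
  have h1 := congrFun h0 i
  exact hinj (h1.trans (map_zero φ).symm)

end Pool.Agent.CPT.H69
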